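import Pool.Agent.U559.Itp.Surj

/-!
# A surjective homomorphism `B(X) → B(Y)` with nonzero kernel, `X` separable, `Y` non-separable

The non-separable space `Y` is a James-tree-like interpolation space of functions on the dyadic
tree which contains the indicator functions of all branches and contains no copy of `c₀`; the
separable space `X` is a James-type interpolated sum of the finite-dimensional sections of `Y`,
whose canonical larger space `X^` satisfies `X^ / X = Y`.  Every operator on `X` extends to `X^`
and so induces an operator on `Y`, and every operator on `Y` arises in this way.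
-/

namespace Pool.Agent.Results.MP_3d4140_an.SeparableOntoNonseparable

open Pool.Agent.U559.Itp

/-- For each of the scalar fields `𝕜 = ℝ, ℂ` there are a separable Banach space `X`, a
non-separable Banach space `Y` and a surjective algebra homomorphism `ψ : B(X) → B(Y)` with
nonzero kernel. -/
theorem result (𝕜 : Type) [RCLike 𝕜] :
    ∃ (X Y : Type) (_ : NormedAddCommGroup X) (_ : NormedSpace 𝕜 X) (_ : CompleteSpace X)
      (_ : NormedAddCommGroup Y) (_ : NormedSpace 𝕜 Y) (_ : CompleteSpace Y),
      TopologicalSpace.SeparableSpace X ∧ ¬ TopologicalSpace.SeparableSpace Y ∧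
      ∃ ψ : (X →L[𝕜] X) →ₐ[𝕜] (Y →L[𝕜] Y),
        Function.Surjective ψ ∧ ∃ T : X →L[𝕜] X, T ≠ 0 ∧ ψ T = 0 :=
  ⟨↥(SO 𝕜).X0, Y 𝕜, inferInstance, inferInstance, (SO 𝕜).X0_closed.completeSpace_coe,
    inferInstance, inferInstance, inferInstance, (SO 𝕜).X0_separable, Y_nonsep,
    psi, psi_surjective, psi_kernel⟩

end Pool.Agent.Results.MP_3d4140_an.SeparableOntoNonseparable
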